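import Mathlib
import Pool.Agent.R261.Eff.Main

/-!
# MP_030830_an: the optimal periodic effort is monotone in the effort budget

Full (positive) answer to Q1.  For all data `(c, w, δ, T)` for which the minimiser is unique for
every budget, the optimal effort measures for two budgets `η₁ < η₂` satisfy `μ₁ ≤ μ₂`.

The proof discretises the effort to atoms on a grid (with the data `c + 1/n`, `w + 1/n`), compares
the first order systems of the two discrete minimisers by looking at the smallest quotient of the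
two states over the active sites of the smaller budget, and passes to the limit by Helly's
selection theorem and uniqueness.
-/

set_option autoImplicit false

open MeasureTheory Set

namespace Pool.Agent.Results.MP_030830_an.EffortMonotone

/-- The class `M(T)`: right-continuous, non-decreasing `α : ℝ → ℝ` with `α 0 = 0` and
`α (t + T) = α t + α T` for all `t`. -/
structure MClass (T : ℝ) (α : ℝ → ℝ) : Prop where
  mono : Monotone α
  rightCont : ∀ t, ContinuousWithinAt α (Ici t) t
  zero : α 0 = 0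
  quasiPeriodic : ∀ t, α (t + T) = α t + α T

/-- The effort measure `μ_α` (the Lebesgue-Stieltjes measure of `α`). -/
noncomputable def effort {T : ℝ} {α : ℝ → ℝ} (h : MClass T α) : Measure ℝ :=
  (StieltjesFunction.mk α h.mono h.rightCont : StieltjesFunction ℝ).measure

/-- The periodic solution `S_α` of `S' = c - [η + δ] S` on `[0, T)`. -/
noncomputable def solution (T δ : ℝ) (c α : ℝ → ℝ) (t : ℝ) : ℝ :=
  Real.exp (-α t - δ * t) / (1 - Real.exp (-α T - δ * T)) *
    ((∫ r in (0 : ℝ)..t, c r * Real.exp (α r + δ * r)) +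
      Real.exp (-α T - δ * T) * ∫ r in t..T, c r * Real.exp (α r + δ * r))

/-- The cost `(1/T) ∫_0^T w S_α`. -/
noncomputable def meanCost (T δ : ℝ) (c w α : ℝ → ℝ) : ℝ :=
  (1 / T) * ∫ t in (0 : ℝ)..T, w t * solution T δ c α t

/-- `α` minimises the cost among the efforts in `M(T)` with mean `η`. -/
def IsMinimiser (T δ : ℝ) (c w : ℝ → ℝ) (η : ℝ) (α : ℝ → ℝ) : Prop :=
  MClass T α ∧ α T / T = η ∧
    ∀ β, MClass T β → β T / T = η → meanCost T δ c w α ≤ meanCost T δ c w β

lemma cls_iff {T : ℝ} {α : ℝ → ℝ} : MClass T α ↔ R261.Eff.Cls T α :=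
  ⟨fun h => ⟨h.mono, h.rightCont, h.zero, h.quasiPeriodic⟩,
    fun h => ⟨h.mono, h.rc, h.zero, h.per⟩⟩

lemma min_iff {T δ : ℝ} {c w : ℝ → ℝ} {η : ℝ} {α : ℝ → ℝ} :
    IsMinimiser T δ c w η α ↔ R261.Eff.IsOpt T δ c w η α := by
  unfold IsMinimiser R261.Eff.IsOpt
  simp only [cls_iff]
  rfl

/-- **Theorem.** Let `T, δ > 0`, let `c ≥ 0` be integrable on `[0,T]` and let `w ≥ 0` be
measurable (only the values on `[0,T]` matter, so that periodicity need not be assumed).  Suppose
that for every `η > 0` there is exactly one minimiser.  If `0 < η₁ < η₂`, and `α₁`, `α₂` are the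
minimisers for `η₁`, `η₂`, then `α₁ s - α₁ t ≤ α₂ s - α₂ t` for all `t < s`, and the effort
measures satisfy `μ₁ E ≤ μ₂ E` for all sets `E`, in particular for `E = [t, s)`. -/
theorem result (T δ : ℝ) (hT : 0 < T) (hδ : 0 < δ) (c w : ℝ → ℝ)
    (hc : ∀ t, 0 ≤ c t) (hcint : IntervalIntegrable c volume 0 T)
    (hw : ∀ t, 0 ≤ w t) (hwm : Measurable w)
    (huniq : ∀ η : ℝ, 0 < η → ∃! α : ℝ → ℝ, IsMinimiser T δ c w η α)
    (η₁ η₂ : ℝ) (hη₁ : 0 < η₁) (hη : η₁ < η₂) (α₁ α₂ : ℝ → ℝ)
    (h₁ : IsMinimiser T δ c w η₁ α₁) (h₂ : IsMinimiser T δ c w η₂ α₂) :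
    (∀ t s : ℝ, t < s → α₁ s - α₁ t ≤ α₂ s - α₂ t) ∧
      (∀ E : Set ℝ, effort h₁.1 E ≤ effort h₂.1 E) ∧
      ∀ t s : ℝ, t < s → effort h₁.1 (Ico t s) ≤ effort h₂.1 (Ico t s) := by
  have hu : ∀ η : ℝ, 0 < η → ∀ α β, R261.Eff.IsOpt T δ c w η α → R261.Eff.IsOpt T δ c w η β →
      α = β := fun η hη α β hα hβ => (huniq η hη).unique (min_iff.mpr hα) (min_iff.mpr hβ)
  have hwint := R261.Eff.integrable_of_unique hT hδ hcint hc hwm hη₁ (hu η₁ hη₁)
  have hmono := R261.Eff.main_int hT hδ hcint hc hwint hw hη₁ hη (hu η₁ hη₁)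
    (hu η₂ (hη₁.trans hη)) (min_iff.mp h₁) (min_iff.mp h₂)
  have hmeas : ∀ E : Set ℝ, effort h₁.1 E ≤ effort h₂.1 E := by
    intro E
    let D : StieltjesFunction ℝ := StieltjesFunction.mk (fun t => α₂ t - α₁ t) hmono
      (fun t => (h₂.1.rightCont t).sub (h₁.1.rightCont t))
    have hadd : (StieltjesFunction.mk α₂ h₂.1.mono h₂.1.rightCont : StieltjesFunction ℝ)
        = (StieltjesFunction.mk α₁ h₁.1.mono h₁.1.rightCont : StieltjesFunction ℝ) + D := by
      ext t
      show α₂ t = α₁ t + (α₂ t - α₁ t)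
      ring
    unfold effort
    rw [hadd, StieltjesFunction.measure_add, Measure.add_apply]
    exact le_self_add
  refine ⟨fun t s hts => ?_, hmeas, fun t s _ => hmeas _⟩
  have := hmono hts.le
  simp only at this
  linarith

end Pool.Agent.Results.MP_030830_an.EffortMonotone
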